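import Pool.Agent.R185.FracTransEx

/-!
# The fractional transversal game number can exceed the integer one

The hypergraph has the vertices `z, a, b, c, d, x, y, y'` and the edges
`{z}, {a}, {a,b}, {b,c}, {c,d}, {d}, {x,y}, {x,y'}`.  Its integer transversal game number is at
most `5`, its fractional transversal game number is at least `31/6`.
-/

open Finset

namespace Pool.Agent.Results.MP_efe87e_co.FractionalExceedsInteger

open Pool.Agent.R185.FracTrans

/-! ### The integer transversal game -/

/-- Every edge is covered by the set `T` of picked vertices. -/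
def IntCovered {V : Type} [DecidableEq V] (H : FinHypergraph V) (T : Finset V) : Prop :=
  ∀ E ∈ H.edges, (T ∩ E).Nonempty

/-- The vertex `v` may be picked: it lies in at least one edge which is not yet covered. -/
def IntLegal {V : Type} [DecidableEq V] (H : FinHypergraph V) (T : Finset V) (v : V) : Prop :=
  ∃ E ∈ H.edges, v ∈ E ∧ ¬ (T ∩ E).Nonempty

/-- `HitterForces H n p T`: in the integer game in which the vertices of `T` have been picked and
the player `p` is to move, Edge-hitter can force that at most `n` further vertices are picked. -/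
def HitterForces {V : Type} [DecidableEq V] (H : FinHypergraph V) :
    ℕ → Player → Finset V → Prop
  | 0, _, T => IntCovered H T
  | n + 1, .hitter, T => IntCovered H T ∨ ∃ v, IntLegal H T v ∧
      HitterForces H n .staller (insert v T)
  | n + 1, .staller, T => IntCovered H T ∨ ∀ v, IntLegal H T v →
      HitterForces H n .hitter (insert v T)

/-- The integer transversal game number `τ_g(H)`: the length of the game under optimal play, i.e.
the least `n` such that Edge-hitter, who starts, can force that at most `n` vertices are
picked. -/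
noncomputable def tauG {V : Type} [DecidableEq V] (H : FinHypergraph V) : ℕ :=
  sInf {n | HitterForces H n .hitter ∅}

/-- The fractional transversal game number `τ*_g(H)`: the value of the fractional game which
starts from the zero cover function with a move of Edge-hitter. -/
noncomputable def tauStarG {V : Type} [DecidableEq V] (H : FinHypergraph V) : EReal :=
  lowerValue H (fun _ => 0) .hitter

instance {V : Type} [DecidableEq V] (H : FinHypergraph V) (T : Finset V) :
    Decidable (IntCovered H T) := by unfold IntCovered; infer_instance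

instance {V : Type} [DecidableEq V] (H : FinHypergraph V) (T : Finset V) (v : V) :
    Decidable (IntLegal H T v) := by unfold IntLegal; infer_instance

/-- Edge-hitter's second pick -/
def reply : Fin 8 → Fin 8 := ![1, 4, 4, 1, 1, 0, 0, 0]

/-- Edge-hitter's third pick -/
def last : Fin 8 → Fin 8 → Fin 8 :=
  ![![0, 0, 4, 4, 3, 0, 0, 0], ![2, 0, 0, 0, 0, 0, 0, 0], ![1, 0, 0, 0, 0, 0, 0, 0],
    ![4, 0, 0, 0, 0, 0, 0, 0], ![2, 0, 0, 0, 0, 0, 0, 0], fun _ => 0, fun _ => 0, fun _ => 0]

lemma check : ∀ v : Fin 8, IntLegal H₀ {5} v →
    IntLegal H₀ {v, 5} (reply v) ∧ ∀ w : Fin 8, IntLegal H₀ {reply v, v, 5} w →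
      IntLegal H₀ {w, reply v, v, 5} (last v w) ∧
        IntCovered H₀ {last v w, w, reply v, v, 5} := by
  decide

lemma hitterForces_five : HitterForces H₀ 5 .hitter ∅ := by
  refine Or.inr ⟨5, by decide, ?_⟩
  refine Or.inr fun v hv => ?_
  obtain ⟨h1, h2⟩ := check v hv
  refine Or.inr ⟨reply v, h1, Or.inr fun w hw => ?_⟩
  obtain ⟨h3, h4⟩ := h2 w hw
  exact Or.inr ⟨last v w, h3, h4⟩

lemma tauG_le : tauG H₀ ≤ 5 := Nat.sInf_le hitterForces_five

lemma hitterForces_tauG : HitterForces H₀ (tauG H₀) .hitter ∅ :=
  Nat.sInf_mem (s := {n | HitterForces H₀ n .hitter ∅}) ⟨5, hitterForces_five⟩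

/-- The negation of Q1: there is a hypergraph `H` with `τ*_g(H) > τ_g(H)`.  (The other conjuncts
record that the two numbers are well defined: Edge-hitter can force that the integer game on
`H` has length at most `τ_g(H)`, and `τ*_g` is both what Staller and what Edge-hitter can
secure.) -/
theorem result :
    (∃ (V : Type) (_ : Fintype V) (_ : DecidableEq V) (H : FinHypergraph V),
      HitterForces H (tauG H) .hitter ∅ ∧ ((tauG H : ℝ) : EReal) < tauStarG H) ∧
    ∀ (V : Type) [Nonempty V] [DecidableEq V] (H : FinHypergraph V),
      tauStarG H = upperValue H (fun _ => 0) .hitter := by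
  refine ⟨⟨Fin 8, inferInstance, inferInstance, H₀, hitterForces_tauG, ?_⟩,
    fun V _ _ H => lowerValue_eq_upperValue H _ _⟩
  refine lt_of_lt_of_le ?_ (le_lowerValue staller_main)
  rw [EReal.coe_lt_coe_iff]
  have : (tauG H₀ : ℝ) ≤ 5 := by exact_mod_cast tauG_le
  linarith

end Pool.Agent.Results.MP_efe87e_co.FractionalExceedsInteger
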